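import Mathlib

/-!
# Polynomial stability for `T_r[t]`-free digraphs of large out-degree (MP_cbc67c_co, Q1)

Outline.  For a digraph `D` on `n` vertices with minimum out-degree at least
`((3r-7)/(3r-4) + eps) n` let `tau` be the number of transitive `r`-tuples (ordered copies of the
transitive tournament `T_r`).

* `removal`: a linear removal lemma.  `D` becomes `(r-1)`-partite after deleting at most
  `C(r, eps) * tau / n^(r-2)` arcs.  Proof by induction on `r`.  Write `M(v)` for the
  non-out-neighbours of `v` and `u = n/(3r-4)`, so `|M(v)| <= 3u - eps n`.  If `v -> w` and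
  `|M(v) cap M(w)| >= u - eps n` then the arc is heavy, i.e. it starts many copies of `T_r`.
  Induction applied inside an out-neighbourhood `N(v)`, plus the common out-neighbourhood of
  an `(r-2)`-tuple inside `N(v)`, yields `r-1` almost independent classes covering all but
  fewer than `u` vertices.  A remaining vertex which has non-heavy arcs with typical vertices of
  every class starts many copies of `T_r`; all the others can be put into a class.
* `T_upper`: in a `T_r[t]`-free digraph, `(tau / n^r)^(t^(r-1)) <= r t^2 / n` (Erdos, 1964).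
-/

set_option autoImplicit false

namespace Pool.Agent.Results.MP_cbc67c_co.PolyStability

open Finset

noncomputable section

open scoped Classical in
/-- number of transitive (ordered) `m`-tuples inside `S` -/
def T {V : Type*} (E : V → V → Prop) : ℕ → Finset V → ℝ
  | 0, _ => 1
  | m + 1, S => ∑ z ∈ S, T E m (S.filter (E z))

open scoped Classical in
/-- sum over transitive `m`-tuples inside `W` of `f` (common out-neighbourhood in `X`) -/
def P {V : Type*} (E : V → V → Prop) (f : Finset V → ℝ) : ℕ → Finset V → Finset V → ℝ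
  | 0, _, X => f X
  | m + 1, W, X => ∑ z ∈ W, P E f m (W.filter (E z)) (X.filter (E z))

section
variable {V : Type*} (E : V → V → Prop)

theorem T_nonneg (m : ℕ) (S : Finset V) : 0 ≤ T E m S := by
  induction m generalizing S with
  | zero => simp [T]
  | succ m ih => simp only [T]; exact sum_nonneg fun z _ => ih _

theorem T_one (S : Finset V) : T E 1 S = S.card := by
  simp [T]

open scoped Classical in
theorem T_two (S : Finset V) :
    T E 2 S = (((S ×ˢ S).filter (fun p => E p.1 p.2)).card : ℝ) := by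
  have : T E 2 S = ∑ z ∈ S, ((S.filter (E z)).card : ℝ) := by
    show ∑ z ∈ S, T E 1 (S.filter (E z)) = _
    exact sum_congr rfl fun z _ => T_one E _
  rw [this, card_filter, sum_product]
  push_cast
  refine sum_congr rfl fun z _ => ?_
  rw [card_filter]; push_cast; rfl

open scoped Classical in
theorem T_mono (m : ℕ) {S S' : Finset V} (h : S ⊆ S') : T E m S ≤ T E m S' := by
  induction m generalizing S S' with
  | zero => simp [T]
  | succ m ih =>
    simp only [T]
    calc _ ≤ ∑ z ∈ S, T E m (S'.filter (E z)) :=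
          sum_le_sum fun z _ => ih (filter_subset_filter _ h)
      _ ≤ _ := sum_le_sum_of_subset_of_nonneg h fun z _ _ => T_nonneg E _ _

open scoped Classical in
theorem card_filter_ge {S W : Finset V} (hW : W ⊆ S) {b : ℝ} {z : V}
    (hM : ((S.filter (fun w => ¬ E z w)).card : ℝ) ≤ b) :
    (W.card : ℝ) - b ≤ ((W.filter (E z)).card : ℝ) := by
  have h1 := card_filter_add_card_filter_not (s := W) (p := E z)
  have h2 : (W.filter (fun w => ¬ E z w)).card ≤ (S.filter (fun w => ¬ E z w)).card :=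
    card_le_card (filter_subset_filter _ hW)
  have h3 : ((W.filter (E z)).card : ℝ) + ((W.filter (fun w => ¬ E z w)).card : ℝ) = W.card := by
    exact_mod_cast h1
  have h4 : ((W.filter (fun w => ¬ E z w)).card : ℝ) ≤ ((S.filter (fun w => ¬ E z w)).card : ℝ) := by
    exact_mod_cast h2
  linarith

open scoped Classical in
/-- greedy lower bound -/
theorem greedy {S : Finset V} {b : ℝ} (hb : 0 ≤ b)
    (hM : ∀ z ∈ S, ((S.filter (fun w => ¬ E z w)).card : ℝ) ≤ b) {s : ℝ} (hs : 0 ≤ s)
    (m : ℕ) {W : Finset V} (hW : W ⊆ S) (h : s + b * m ≤ W.card) :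
    s * b ^ m ≤ T E (m + 1) W := by
  induction m generalizing W with
  | zero => rw [T_one]; simpa using h
  | succ m ih =>
    have hlow : ∀ z ∈ W, s * b ^ m ≤ T E (m + 1) (W.filter (E z)) := by
      intro z hz
      apply ih ((filter_subset _ _).trans hW)
      have := card_filter_ge E hW (hM z (hW hz))
      push_cast at h
      linarith
    have hcard : b ≤ W.card := by
      push_cast at h
      have : 0 ≤ b * m := by positivity
      linarith
    calc s * b ^ (m + 1) = b * (s * b ^ m) := by ring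
      _ ≤ W.card * (s * b ^ m) := by
          apply mul_le_mul_of_nonneg_right hcard; positivity
      _ = ∑ z ∈ W, s * b ^ m := by simp
      _ ≤ _ := sum_le_sum hlow

theorem P_nonneg {f : Finset V → ℝ} (hf : ∀ X, 0 ≤ f X) (m : ℕ) (W X : Finset V) :
    0 ≤ P E f m W X := by
  induction m generalizing W X with
  | zero => simpa [P] using hf X
  | succ m ih => simp only [P]; exact sum_nonneg fun z _ => ih _ _

open scoped Classical in
/-- pigeonhole along tuples -/
theorem pigeon {S : Finset V} {b : ℝ} {f : Finset V → ℝ} (hf0 : ∀ X, 0 ≤ f X)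
    (hM : ∀ z ∈ S, ((S.filter (fun w => ¬ E z w)).card : ℝ) ≤ b)
    (m : ℕ) {W X : Finset V} (hW : W ⊆ S) (hX : X ⊆ S) (h : 0 < T E m W) :
    ∃ X' ⊆ X, (X.card : ℝ) - m * b ≤ X'.card ∧ f X' * T E m W ≤ P E f m W X := by
  induction m generalizing W X with
  | zero => exact ⟨X, Subset.rfl, by simp, by simp [T, P]⟩
  | succ m ih =>
    by_contra hcon
    push Not at hcon
    -- for every z in W, P m ≥ lam * T m
    have hne : 0 < T E (m + 1) W := h
    set lam := P E f (m + 1) W X / T E (m + 1) W with hlam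
    have hP : P E f (m + 1) W X = lam * T E (m + 1) W := by
      rw [hlam]; field_simp
    have key : ∀ z ∈ W, 0 < T E m (W.filter (E z)) →
        lam * T E m (W.filter (E z)) < P E f m (W.filter (E z)) (X.filter (E z)) := by
      intro z hz hpos
      obtain ⟨X', hX', hc, hf⟩ := ih ((filter_subset _ _).trans hW)
        (X := X.filter (E z)) ((filter_subset _ _).trans hX) hpos
      have h1 : (X.card : ℝ) - (m + 1 : ℕ) * b ≤ X'.card := by
        have := card_filter_ge E hX (hM z (hW hz))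
        push_cast; linarith
      have h2 := hcon X' (hX'.trans (filter_subset _ _)) h1
      rw [hP] at h2
      have h3 : lam < f X' := lt_of_mul_lt_mul_right h2 hne.le
      calc lam * T E m (W.filter (E z)) < f X' * T E m (W.filter (E z)) :=
            mul_lt_mul_of_pos_right h3 hpos
        _ ≤ _ := hf
    have key2 : ∀ z ∈ W, lam * T E m (W.filter (E z)) ≤
        P E f m (W.filter (E z)) (X.filter (E z)) := by
      intro z hz
      rcases (T_nonneg E m (W.filter (E z))).eq_or_lt with h0 | h0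
      · rw [← h0]; simpa using P_nonneg E hf0 _ _ _
      · exact (key z hz h0).le
    have hex : ∃ z ∈ W, 0 < T E m (W.filter (E z)) := by
      by_contra hno
      push Not at hno
      have : T E (m + 1) W ≤ 0 := sum_nonpos hno
      linarith
    obtain ⟨z, hz, hzp⟩ := hex
    have : ∑ z ∈ W, lam * T E m (W.filter (E z)) <
        ∑ z ∈ W, P E f m (W.filter (E z)) (X.filter (E z)) :=
      sum_lt_sum key2 ⟨z, hz, key z hz hzp⟩
    rw [← mul_sum] at this
    change lam * T E (m + 1) W < P E f (m + 1) W X at this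
    rw [hP] at this
    exact lt_irrefl _ this

open scoped Classical in
theorem P_T_le (j : ℕ) (m : ℕ) {W X : Finset V} (h : W ⊆ X) :
    P E (T E j) m W X ≤ T E (j + m) X := by
  induction m generalizing W X with
  | zero => simp [P]
  | succ m ih =>
    simp only [P]
    calc _ ≤ ∑ z ∈ W, T E (j + m) (X.filter (E z)) :=
          sum_le_sum fun z _ => ih (filter_subset_filter _ h)
      _ ≤ ∑ z ∈ X, T E (j + m) (X.filter (E z)) :=
          sum_le_sum_of_subset_of_nonneg h fun z _ _ => T_nonneg E _ _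
      _ = _ := rfl

open scoped Classical in
theorem P_inter (S₁ : Finset V) (m : ℕ) {W X : Finset V} (h : X ∩ S₁ = W) :
    P E (fun Y => ((Y ∩ S₁).card : ℝ)) m W X = T E (m + 1) W := by
  induction m generalizing W X with
  | zero => simp [P, T_one, h]
  | succ m ih =>
    simp only [P]
    rw [T]
    refine sum_congr rfl fun z _ => ?_
    apply ih
    rw [← h]
    ext y; simp only [mem_inter, mem_filter]; tauto

theorem P_add (f g : Finset V → ℝ) (m : ℕ) (W X : Finset V) :
    P E (fun Y => f Y + g Y) m W X = P E f m W X + P E g m W X := by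
  induction m generalizing W X with
  | zero => simp [P]
  | succ m ih => simp only [P, ih, sum_add_distrib]

theorem P_smul (c : ℝ) (f : Finset V → ℝ) (m : ℕ) (W X : Finset V) :
    P E (fun Y => c * f Y) m W X = c * P E f m W X := by
  induction m generalizing W X with
  | zero => simp [P]
  | succ m ih => simp only [P, ih, mul_sum]

open scoped Classical in
theorem classes_lower (Ts : ℕ → Finset V) (a : ℕ → ℝ) {κ : ℝ} (hκ : 0 ≤ κ) (K : ℕ)
    (h : ∀ i < K, ∀ z ∈ Ts i, ∀ j < K, j ≠ i →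
      (((Ts j).filter (fun w => ¬ E z w)).card : ℝ) ≤ a i)
    (d : ℕ) : ∀ (j : ℕ), j + d = K → ∀ W : Finset V,
      (∀ i, j ≤ i → i < K → κ + ∑ l ∈ Ico j i, a l ≤ ((W ∩ Ts i).card : ℝ)) →
      κ ^ d ≤ T E d W := by
  induction d with
  | zero => intro j _ W _; simp [T]
  | succ d ih =>
    intro j hj W hW
    have h0 := hW j le_rfl (by omega)
    simp only [Ico_self, sum_empty, add_zero] at h0
    have hz : ∀ z ∈ W ∩ Ts j, κ ^ d ≤ T E d (W.filter (E z)) := by
      intro z hz
      rw [mem_inter] at hz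
      apply ih (j + 1) (by omega)
      intro i hi hiK
      have h1 := hW i (by omega) hiK
      have h2 : ∑ l ∈ Ico j i, a l = a j + ∑ l ∈ Ico (j + 1) i, a l :=
        sum_eq_sum_Ico_succ_bot (by omega) a
      have h3 := h j (by omega) z hz.2 i hiK (by omega)
      have h4 : (W ∩ Ts i).card ≤ ((W.filter (E z)) ∩ Ts i).card +
          ((Ts i).filter (fun w => ¬ E z w)).card := by
        rw [← card_filter_add_card_filter_not (s := W ∩ Ts i) (p := E z)]
        apply Nat.add_le_add
        · apply card_le_card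
          intro y; simp only [mem_inter, mem_filter]; tauto
        · apply card_le_card
          intro y; simp only [mem_inter, mem_filter]; tauto
      have h5 : ((W ∩ Ts i).card : ℝ) ≤ (((W.filter (E z)) ∩ Ts i).card : ℝ) +
          (((Ts i).filter (fun w => ¬ E z w)).card : ℝ) := by exact_mod_cast h4
      linarith
    calc κ ^ (d + 1) = κ * κ ^ d := by ring
      _ ≤ ((W ∩ Ts j).card : ℝ) * κ ^ d := by
          apply mul_le_mul_of_nonneg_right h0; positivity
      _ = ∑ z ∈ W ∩ Ts j, κ ^ d := by simp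
      _ ≤ ∑ z ∈ W ∩ Ts j, T E d (W.filter (E z)) := sum_le_sum hz
      _ ≤ ∑ z ∈ W, T E d (W.filter (E z)) :=
          sum_le_sum_of_subset_of_nonneg inter_subset_left fun z _ _ => T_nonneg E _ _
      _ = _ := rfl


end

section
variable {V : Type*} (E : V → V → Prop)

open scoped Classical in
/-- few heavy arcs -/
theorem heavy_bound (k : ℕ) {S : Finset V} {n u ε : ℝ} (hn : n = S.card)
    (hu : n = (3 * k + 5) * u) (hu0 : 0 ≤ u) (hε : 0 ≤ ε)
    (hM : ∀ z ∈ S, ((S.filter (fun w => ¬ E z w)).card : ℝ) ≤ 3 * u - ε * n) :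
    ((((S ×ˢ S).filter (fun p => E p.1 p.2 ∧ u - ε * n ≤
      ((S.filter (fun w => ¬ E p.1 w ∧ ¬ E p.2 w)).card : ℝ))).card : ℝ)) *
      (ε * n * (3 * u) ^ k) ≤ T E (k + 3) S := by
  have hn0 : 0 ≤ n := by rw [hn]; positivity
  have hT : T E (k + 3) S = ∑ p ∈ (S ×ˢ S).filter (fun p => E p.1 p.2),
      T E (k + 1) ((S.filter (E p.1)).filter (E p.2)) := by
    show ∑ x ∈ S, ∑ y ∈ S.filter (E x), T E (k + 1) ((S.filter (E x)).filter (E y)) = _
    rw [sum_filter, sum_product]
    refine sum_congr rfl fun x _ => ?_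
    rw [sum_filter]
  obtain ⟨H, hH⟩ : ∃ H : Finset (V × V), H = (S ×ˢ S).filter (fun p => E p.1 p.2 ∧ u - ε * n ≤
      ((S.filter (fun w => ¬ E p.1 w ∧ ¬ E p.2 w)).card : ℝ)) := ⟨_, rfl⟩
  rw [hT, ← hH]
  have hsub : H ⊆ (S ×ˢ S).filter (fun p => E p.1 p.2) := by
    intro p hp; rw [hH] at hp; simp only [mem_filter] at hp ⊢; tauto
  have hmain : ∀ p ∈ H, ε * n * (3 * u) ^ k ≤
      T E (k + 1) ((S.filter (E p.1)).filter (E p.2)) := ?_
  · calc (H.card : ℝ) * (ε * n * (3 * u) ^ k) = ∑ p ∈ H, (ε * n * (3 * u) ^ k) := by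
          rw [sum_const, nsmul_eq_mul]
      _ ≤ ∑ p ∈ H, T E (k + 1) ((S.filter (E p.1)).filter (E p.2)) := sum_le_sum hmain
      _ ≤ _ := sum_le_sum_of_subset_of_nonneg hsub fun z _ _ => T_nonneg E _ _
  · rintro ⟨x, y⟩ hp
    rw [hH] at hp
    simp only [mem_filter, mem_product] at hp
    obtain ⟨⟨hx, hy⟩, hxy, hh⟩ := hp
    apply greedy E (S := S) (b := 3 * u) (by positivity)
    · intro z hz; have := hM z hz; have : 0 ≤ ε * n := by positivity
      linarith [hM z hz]
    · positivity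
    · exact (filter_subset _ _).trans (filter_subset _ _)
    · -- card of common out-neighbourhood
      have h1 : (S.filter (E x)).card + (S.filter (fun w => ¬ E x w)).card = S.card :=
        card_filter_add_card_filter_not _
      have h2 : ((S.filter (E x)).filter (E y)).card +
          ((S.filter (E x)).filter (fun w => ¬ E y w)).card = (S.filter (E x)).card :=
        card_filter_add_card_filter_not _
      have h3 : (S.filter (fun w => ¬ E y w)).card =
          ((S.filter (E x)).filter (fun w => ¬ E y w)).card +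
          (S.filter (fun w => ¬ E x w ∧ ¬ E y w)).card := by
        rw [← card_filter_add_card_filter_not (s := S.filter (fun w => ¬ E y w)) (p := E x)]
        congr 2
        · ext w; simp only [mem_filter]; tauto
        · ext w; simp only [mem_filter]; tauto
      have hx' := hM x hx
      have hy' := hM y hy
      have h1' : ((S.filter (E x)).card : ℝ) + ((S.filter (fun w => ¬ E x w)).card : ℝ) = S.card := by
        exact_mod_cast h1
      have h2' : (((S.filter (E x)).filter (E y)).card : ℝ) +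
          (((S.filter (E x)).filter (fun w => ¬ E y w)).card : ℝ) = ((S.filter (E x)).card : ℝ) := by
        exact_mod_cast h2
      have h3' : ((S.filter (fun w => ¬ E y w)).card : ℝ) =
          (((S.filter (E x)).filter (fun w => ¬ E y w)).card : ℝ) +
          ((S.filter (fun w => ¬ E x w ∧ ¬ E y w)).card : ℝ) := by exact_mod_cast h3
      simp only at hh ⊢
      have h4 : (3 * (k : ℝ) + 5) * u = 3 * u * k + 5 * u := by ring
      nlinarith

end

section
variable {V : Type*} (E : V → V → Prop)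

open scoped Classical in
theorem finish (k : ℕ) {ε : ℝ} (hε : 0 < ε)
    (S : Finset V) {n q u b τ e0 I : ℝ} (hn : n = S.card)
    (hq : q = 3 * (k : ℝ) + 5) (hnu : n = q * u) (hb : b = 3 * u - ε * n)
    (hM' : ∀ v ∈ S, ((S.filter (fun w => ¬ E v w)).card : ℝ) ≤ b)
    (hτ : τ = T E (k + 3) S) (hn0 : 0 < n) (hq0 : 0 < q) (hu0 : 0 < u) (hb0 : 0 ≤ b)
    (Y : Finset V) (hYS : Y ⊆ S) (cl : V → ℕ) (hcllt : ∀ v, cl v < k + 2)
    (hI : I = (((Y ×ˢ Y).filter (fun p => E p.1 p.2 ∧ cl p.1 = cl p.2)).card : ℝ))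
    (he0 : e0 ≤ ε * n / 4)
    (hYlow : n - Y.card ≤ u - (k + 2) * (ε * n) + e0)
    (hIsm : I ≤ ε ^ 2 / 16 * n ^ 2) :
    ∃ c : V → ℕ, (∀ v, c v < k + 2) ∧
      (((S ×ˢ S).filter (fun p => E p.1 p.2 ∧ c p.1 = c p.2)).card : ℝ) * n ^ (k + 1) ≤
      9 / ε * (I * n ^ (k + 1)) + (2 / ε ^ (k + 2) + 9 * (q / 3) ^ k / ε ^ 2) * τ := by
  have hεn : 0 < ε * n := by positivity
  have hI0 : 0 ≤ I := by rw [hI]; positivity
  -- classes
  obtain ⟨Vc, hVc⟩ : ∃ Vc : ℕ → Finset V, Vc = fun i => Y.filter (fun v => cl v = i) := ⟨_, rfl⟩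
  obtain ⟨U, hU⟩ : ∃ U : Finset V, U = Y.filter (fun g =>
    ¬ ((((Vc (cl g)).filter (E g)).card : ℝ) ≤ ε * n / 4)) := ⟨_, rfl⟩
  obtain ⟨Ts, hTs⟩ : ∃ Ts : ℕ → Finset V, Ts = fun i => (Vc i).filter (fun g => g ∉ U) := ⟨_, rfl⟩
  have hmemV : ∀ i v, v ∈ Vc i ↔ v ∈ Y ∧ cl v = i := by intro i v; rw [hVc]; simp
  have hmemT : ∀ i v, v ∈ Ts i ↔ v ∈ Y ∧ cl v = i ∧ v ∉ U := by
    intro i v; rw [hTs]; simp only [mem_filter, hmemV]; tauto
  have htyp : ∀ i, ∀ g ∈ Ts i, (((Vc i).filter (E g)).card : ℝ) ≤ ε * n / 4 := by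
    intro i g hg
    rw [hmemT] at hg
    obtain ⟨hgY, hgi, hgU⟩ := hg
    rw [hU, mem_filter, not_and, not_not] at hgU
    have := hgU hgY
    rw [hgi] at this; exact this
  have hVTU : ∀ i, ((Vc i).card : ℝ) ≤ (Ts i).card + U.card := by
    intro i
    have : Vc i ⊆ Ts i ∪ U := by
      intro v hv; rw [mem_union, hmemT]; rw [hmemV] at hv; tauto
    exact_mod_cast (card_le_card this).trans (card_union_le _ _)
  have hUI : (U.card : ℝ) * (ε * n / 4) ≤ I := by
    have h1 : I = ∑ g ∈ Y, (((Vc (cl g)).filter (E g)).card : ℝ) := by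
      rw [hI, card_filter, sum_product]
      push_cast
      refine sum_congr rfl fun g hg => ?_
      rw [sum_boole]
      congr 2
      ext y; simp only [mem_filter, hmemV]
      constructor
      · rintro ⟨h1, h2, h3⟩; exact ⟨⟨h1, h3.symm⟩, h2⟩
      · rintro ⟨⟨h1, h3⟩, h2⟩; exact ⟨h1, h2, h3.symm⟩
    rw [h1]
    calc (U.card : ℝ) * (ε * n / 4) = ∑ g ∈ U, (ε * n / 4) := by
          rw [sum_const, nsmul_eq_mul]
      _ ≤ ∑ g ∈ U, (((Vc (cl g)).filter (E g)).card : ℝ) := by
          apply sum_le_sum; intro g hg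
          rw [hU, mem_filter, not_le] at hg
          exact hg.2.le
      _ ≤ _ := by
          apply sum_le_sum_of_subset_of_nonneg
          · rw [hU]; exact filter_subset _ _
          · intro _ _ _; positivity
  have hUsm : (U.card : ℝ) ≤ ε * n / 4 := by
    have h1 : (U.card : ℝ) * (ε * n / 4) ≤ (ε * n / 4) * (ε * n / 4) := by
      refine le_trans hUI (le_trans hIsm (le_of_eq (by ring)))
    exact le_of_mul_le_mul_right h1 (by positivity)
  -- deficiency
  obtain ⟨a, ha⟩ : ∃ a : ℕ → ℝ, a = fun i => 3 * u - ((Vc i).card : ℝ) := ⟨_, rfl⟩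
  have hapos : ∀ i, 0 ≤ a i := by
    intro i
    have ha' : a i = 3 * u - ((Vc i).card : ℝ) := by rw [ha]
    by_cases hT : (Ts i).Nonempty
    · obtain ⟨g, hg⟩ := hT
      have h1 := htyp i g hg
      have hgS : g ∈ S := hYS ((hmemT i g).1 hg).1
      have h2 := card_filter_add_card_filter_not (s := Vc i) (p := E g)
      have h3 : ((Vc i).filter (fun w => ¬ E g w)).card ≤ (S.filter (fun w => ¬ E g w)).card := by
        apply card_le_card
        intro w; simp only [mem_filter, hmemV]; intro h; exact ⟨hYS h.1.1, h.2⟩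
      have h4 := hM' g hgS
      have h2' : (((Vc i).filter (E g)).card : ℝ) + (((Vc i).filter (fun w => ¬ E g w)).card : ℝ) =
        ((Vc i).card : ℝ) := by exact_mod_cast h2
      have h3' : (((Vc i).filter (fun w => ¬ E g w)).card : ℝ) ≤
        ((S.filter (fun w => ¬ E g w)).card : ℝ) := by exact_mod_cast h3
      linarith
    · rw [not_nonempty_iff_eq_empty] at hT
      have := hVTU i
      rw [hT] at this
      simp only [card_empty, Nat.cast_zero, zero_add] at this
      linarith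
  have hcardY : (Y.card : ℝ) = ∑ i ∈ range (k + 2), ((Vc i).card : ℝ) := by
    have : Y.card = ∑ i ∈ range (k + 2), (Vc i).card := by
      rw [hVc]
      exact card_eq_sum_card_fiberwise (fun v _ => by simp [hcllt v])
    exact_mod_cast this
  have hasum : ∑ i ∈ range (k + 2), a i ≤ 2 * u - (k + 2) * (ε * n) + e0 := by
    have h1 : ∑ i ∈ range (k + 2), a i = (k + 2) * (3 * u) - Y.card := by
      rw [hcardY, ha, sum_sub_distrib, sum_const, card_range, nsmul_eq_mul]; push_cast; ring
    rw [h1]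
    have h2 : n = 3 * (k : ℝ) * u + 5 * u := by rw [hnu, hq]; ring
    nlinarith
  have hai : ∀ i < k + 2, a i ≤ 2 * u - (k + 2) * (ε * n) + e0 := by
    intro i hi
    refine le_trans ?_ hasum
    exact single_le_sum (f := a) (fun j _ => hapos j) (mem_range.2 hi)
  -- heavy arcs
  obtain ⟨H, hH⟩ : ∃ H : Finset (V × V), H = (S ×ˢ S).filter (fun p => E p.1 p.2 ∧ u - ε * n ≤
      ((S.filter (fun w => ¬ E p.1 w ∧ ¬ E p.2 w)).card : ℝ)) := ⟨_, rfl⟩
  have hHcard : (H.card : ℝ) * (ε * n * (3 * u) ^ k) ≤ τ := by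
    rw [hH, hτ]
    exact heavy_bound E k hn (by rw [hnu, hq]) hu0.le hε.le (by rw [← hb]; exact hM')
  obtain ⟨W2, hW2⟩ : ∃ W2 : Finset V, W2 = S.filter (fun x =>
    ε * n / 4 < ((S.filter (fun y => (x, y) ∈ H)).card : ℝ)) := ⟨_, rfl⟩
  have hHsub : ∀ x y, (x, y) ∈ H → x ∈ S ∧ y ∈ S := by
    intro x y h; rw [hH, mem_filter, mem_product] at h; exact h.1
  have hW2card : (W2.card : ℝ) * (ε * n / 4) ≤ H.card := by
    have h1 : (H.card : ℝ) = ∑ x ∈ S, ((S.filter (fun y => (x, y) ∈ H)).card : ℝ) := by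
      have : H = (S ×ˢ S).filter (fun p => p ∈ H) := by
        ext ⟨x, y⟩; simp only [mem_filter, mem_product]
        constructor
        · intro h; exact ⟨hHsub x y h, h⟩
        · intro h; exact h.2
      nth_rewrite 1 [this]
      rw [card_filter, sum_product]
      push_cast
      refine sum_congr rfl fun x hx => ?_
      rw [sum_boole]
    rw [h1]
    calc (W2.card : ℝ) * (ε * n / 4) = ∑ g ∈ W2, (ε * n / 4) := by
          rw [sum_const, nsmul_eq_mul]
      _ ≤ ∑ g ∈ W2, ((S.filter (fun y => (g, y) ∈ H)).card : ℝ) := by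
          apply sum_le_sum; intro g hg
          rw [hW2, mem_filter] at hg
          exact hg.2.le
      _ ≤ _ := by
          apply sum_le_sum_of_subset_of_nonneg
          · rw [hW2]; exact filter_subset _ _
          · intro _ _ _; positivity
  -- good vertices outside Y
  obtain ⟨Mc, hMc⟩ : ∃ Mc : V → V → ℝ, Mc = fun v w =>
    ((S.filter (fun z => ¬ E v z ∧ ¬ E w z)).card : ℝ) := ⟨_, rfl⟩
  have hMcsymm : ∀ v w, Mc v w = Mc w v := by
    intro v w; rw [hMc]; simp only [and_comm]
  obtain ⟨Wb, hWb⟩ : ∃ Wb : Finset V, Wb = S.filter (fun w => ∀ i < k + 2, ∃ g ∈ Ts i,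
    (E w g ∨ E g w) ∧ Mc w g < u - ε * n) := ⟨_, rfl⟩
  have hmiss : ∀ i < k + 2, ∀ z ∈ Ts i, ∀ j < k + 2, j ≠ i →
      (((Ts j).filter (fun w => ¬ E z w)).card : ℝ) ≤ a i := by
    intro i hi z hz j hj hji
    have h1 := htyp i z hz
    have hzS : z ∈ S := hYS ((hmemT i z).1 hz).1
    have h2 := card_filter_add_card_filter_not (s := Vc i) (p := E z)
    have h2' : (((Vc i).filter (E z)).card : ℝ) + (((Vc i).filter (fun w => ¬ E z w)).card : ℝ) =
      ((Vc i).card : ℝ) := by exact_mod_cast h2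
    have h3 : ((Vc i).filter (fun w => ¬ E z w)).card + ((Ts j).filter (fun w => ¬ E z w)).card ≤
        (S.filter (fun w => ¬ E z w)).card := by
      rw [← card_union_of_disjoint]
      · apply card_le_card
        intro w
        simp only [mem_union, mem_filter, hmemV, hmemT]
        rintro (h | h)
        · exact ⟨hYS h.1.1, h.2⟩
        · exact ⟨hYS h.1.1, h.2⟩
      · rw [disjoint_left]
        intro w
        simp only [mem_filter, hmemV, hmemT]
        rintro h h'
        exact hji (h'.1.2.1.symm.trans h.1.2)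
    have h3' : (((Vc i).filter (fun w => ¬ E z w)).card : ℝ) +
        (((Ts j).filter (fun w => ¬ E z w)).card : ℝ) ≤
        ((S.filter (fun w => ¬ E z w)).card : ℝ) := by exact_mod_cast h3
    have h4 := hM' z hzS
    have ha' : a i = 3 * u - ((Vc i).card : ℝ) := by rw [ha]
    rw [ha']
    linarith
  have hWblow : ∀ w ∈ Wb, (ε * n) ^ (k + 2) ≤ T E (k + 2) (S.filter (E w)) := by
    intro w hw
    rw [hWb, mem_filter] at hw
    obtain ⟨hwS, hw⟩ := hw
    apply classes_lower E Ts a hεn.le (k + 2) hmiss (k + 2) 0 (by omega)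
    intro i _ hi
    obtain ⟨g, hg, _, hgM⟩ := hw i hi
    have hgY := ((hmemT i g).1 hg)
    have h1 := htyp i g hg
    have h2 : ((Ts i).filter (fun v => ¬ E w v)).card ≤
        ((Vc i).filter (E g)).card + (S.filter (fun z => ¬ E w z ∧ ¬ E g z)).card := by
      have hsub : (Ts i).filter (fun v => ¬ E w v) ⊆
        (Vc i).filter (E g) ∪ S.filter (fun z => ¬ E w z ∧ ¬ E g z) := by
        intro v
        simp only [mem_union, mem_filter, hmemV, hmemT]
        rintro ⟨⟨h1, h2, h3⟩, h4⟩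
        by_cases h5 : E g v
        · left; exact ⟨⟨h1, h2⟩, h5⟩
        · right; exact ⟨hYS h1, h4, h5⟩
      exact (card_le_card hsub).trans (card_union_le _ _)
    have h2' : (((Ts i).filter (fun v => ¬ E w v)).card : ℝ) ≤
        (((Vc i).filter (E g)).card : ℝ) + Mc w g := by
      rw [hMc]; beta_reduce; exact_mod_cast h2
    have h3 := card_filter_add_card_filter_not (s := Ts i) (p := E w)
    have h3' : (((Ts i).filter (E w)).card : ℝ) + (((Ts i).filter (fun v => ¬ E w v)).card : ℝ) =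
      ((Ts i).card : ℝ) := by exact_mod_cast h3
    have h4 : (Ts i).filter (E w) ⊆ S.filter (E w) ∩ Ts i := by
      intro v; simp only [mem_inter, mem_filter, hmemT]
      intro h; exact ⟨⟨hYS h.1.1, h.2⟩, h.1⟩
    have h4' : (((Ts i).filter (E w)).card : ℝ) ≤ ((S.filter (E w) ∩ Ts i).card : ℝ) := by
      exact_mod_cast card_le_card h4
    have h5 := hVTU i
    have h6 : ∑ l ∈ Ico 0 i, a l + a i ≤ 2 * u - (k + 2) * (ε * n) + e0 := by
      refine le_trans ?_ hasum
      have : ∑ l ∈ Ico 0 i, a l + a i = ∑ l ∈ range (i + 1), a l := by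
        rw [sum_range_succ, range_eq_Ico]
      rw [this]
      apply sum_le_sum_of_subset_of_nonneg
      · intro x; simp only [mem_range]; omega
      · intro _ _ _; exact hapos _
    have ha' : a i = 3 * u - ((Vc i).card : ℝ) := by rw [ha]
    have hk : 0 ≤ (k : ℝ) * (ε * n) := by positivity
    nlinarith
  have hWbcard : (Wb.card : ℝ) * (ε * n) ^ (k + 2) ≤ τ := by
    calc (Wb.card : ℝ) * (ε * n) ^ (k + 2) = ∑ w ∈ Wb, (ε * n) ^ (k + 2) := by
          rw [sum_const, nsmul_eq_mul]
      _ ≤ ∑ w ∈ Wb, T E (k + 2) (S.filter (E w)) := sum_le_sum hWblow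
      _ ≤ ∑ w ∈ S, T E (k + 2) (S.filter (E w)) := by
          apply sum_le_sum_of_subset_of_nonneg
          · rw [hWb]; exact filter_subset _ _
          · intro _ _ _; exact T_nonneg E _ _
      _ = τ := by rw [hτ]; rfl
  -- the colouring
  have hch : ∀ w : V, ∃ i, i < k + 2 ∧ (w ∈ S → w ∉ Wb → ∀ g ∈ Ts i, (E w g ∨ E g w) →
      u - ε * n ≤ Mc w g) := by
    intro w
    by_cases hw : w ∈ S ∧ w ∉ Wb
    · have h1 := hw.2
      rw [hWb, mem_filter, not_and] at h1
      have h2 := h1 hw.1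
      push Not at h2
      obtain ⟨i, hi, h3⟩ := h2
      exact ⟨i, hi, fun _ _ => h3⟩
    · exact ⟨0, by omega, fun h1 h2 => absurd ⟨h1, h2⟩ hw⟩
  choose f hf1 hf2 using hch
  obtain ⟨c, hc⟩ : ∃ c : V → ℕ, c = fun v => if v ∈ Y then cl v else f v := ⟨_, rfl⟩
  have hcY : ∀ v ∈ Y, c v = cl v := by intro v hv; rw [hc]; simp [hv]
  have hcN : ∀ v ∉ Y, c v = f v := by intro v hv; rw [hc]; simp [hv]
  refine ⟨c, fun v => ?_, ?_⟩
  · by_cases hv : v ∈ Y
    · rw [hcY v hv]; exact hcllt v
    · rw [hcN v hv]; exact hf1 v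
  obtain ⟨B, hB⟩ : ∃ B : Finset V, B = U ∪ Wb ∪ W2 := ⟨_, rfl⟩
  have hHmem : ∀ x ∈ S, ∀ y ∈ S, E x y → u - ε * n ≤ Mc x y → (x, y) ∈ H := by
    intro x hx y hy hxy hM; rw [hH, mem_filter, mem_product]
    rw [hMc] at hM
    exact ⟨⟨hx, hy⟩, hxy, hM⟩
  have hcover : (S ×ˢ S).filter (fun p => E p.1 p.2 ∧ c p.1 = c p.2) ⊆
      (Y ×ˢ Y).filter (fun p => E p.1 p.2 ∧ cl p.1 = cl p.2) ∪ H ∪ (B ×ˢ S) ∪ (S ×ˢ B) := by
    rintro ⟨x, y⟩ hp
    simp only [mem_filter, mem_product] at hp
    obtain ⟨⟨hx, hy⟩, hxy, hcc⟩ := hp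
    by_cases hxB : x ∈ B
    · simp only [mem_union, mem_product]; left; right; exact ⟨hxB, hy⟩
    by_cases hyB : y ∈ B
    · simp only [mem_union, mem_product]; right; exact ⟨hx, hyB⟩
    have hxB' : x ∉ U ∧ x ∉ Wb ∧ x ∉ W2 := by
      rw [hB] at hxB; simp only [mem_union] at hxB; tauto
    have hyB' : y ∉ U ∧ y ∉ Wb ∧ y ∉ W2 := by
      rw [hB] at hyB; simp only [mem_union] at hyB; tauto
    by_cases hxY : x ∈ Y
    · by_cases hyY : y ∈ Y
      · simp only [mem_union, mem_filter, mem_product]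
        left; left; left
        rw [hcY x hxY, hcY y hyY] at hcc
        exact ⟨⟨hxY, hyY⟩, hxy, hcc⟩
      · have h1 : x ∈ Ts (f y) := by
          rw [hmemT]; rw [hcY x hxY, hcN y hyY] at hcc; exact ⟨hxY, hcc, hxB'.1⟩
        have h2 := hf2 y hy hyB'.2.1 x h1 (Or.inr hxy)
        rw [hMcsymm] at h2
        simp only [mem_union]
        left; left; right
        exact hHmem x hx y hy hxy h2
    · by_cases hyY : y ∈ Y
      · have h1 : y ∈ Ts (f x) := by
          rw [hmemT]; rw [hcN x hxY, hcY y hyY] at hcc; exact ⟨hyY, hcc.symm, hyB'.1⟩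
        have h2 := hf2 x hx hxB'.2.1 y h1 (Or.inl hxy)
        simp only [mem_union]
        left; left; right
        exact hHmem x hx y hy hxy h2
      · -- both outside Y
        rw [hcN x hxY, hcN y hyY] at hcc
        simp only [mem_union]
        left; left; right
        apply hHmem x hx y hy hxy
        have hfew : ∀ w, w ∈ S → w ∉ Wb → w ∉ W2 →
            (((Ts (f w)).filter (E w)).card : ℝ) ≤ ε * n / 4 := by
          intro w hw hwb hw2
          rw [hW2, mem_filter, not_and, not_lt] at hw2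
          refine le_trans ?_ (hw2 hw)
          have : (Ts (f w)).filter (E w) ⊆ S.filter (fun y => (w, y) ∈ H) := by
            intro g; simp only [mem_filter]
            rintro ⟨hg, hwg⟩
            have hgS : g ∈ S := hYS ((hmemT _ g).1 hg).1
            exact ⟨hgS, hHmem w hw g hgS hwg (hf2 w hw hwb g hg (Or.inl hwg))⟩
          exact_mod_cast card_le_card this
        have h1 := hfew x hx hxB'.2.1 hxB'.2.2
        have h2 := hfew y hy hyB'.2.1 hyB'.2.2
        rw [← hcc] at h2
        have h3 : (Ts (f x)).card ≤ ((Ts (f x)).filter (E x)).card +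
            ((Ts (f x)).filter (E y)).card + (S.filter (fun z => ¬ E x z ∧ ¬ E y z)).card := by
          have : Ts (f x) ⊆ (Ts (f x)).filter (E x) ∪ (Ts (f x)).filter (E y) ∪
              S.filter (fun z => ¬ E x z ∧ ¬ E y z) := by
            intro v hv
            simp only [mem_union, mem_filter]
            have hvS : v ∈ S := hYS ((hmemT _ v).1 hv).1
            tauto
          exact (card_le_card this).trans ((card_union_le _ _).trans
            (Nat.add_le_add_right (card_union_le _ _) _))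
        have h3' : ((Ts (f x)).card : ℝ) ≤ (((Ts (f x)).filter (E x)).card : ℝ) +
            (((Ts (f x)).filter (E y)).card : ℝ) + Mc x y := by
          rw [hMc]; beta_reduce; exact_mod_cast h3
        have h4 := hVTU (f x)
        have h5 := hai (f x) (hf1 x)
        have ha' : a (f x) = 3 * u - ((Vc (f x)).card : ℝ) := by rw [ha]
        have hk : 0 ≤ (k : ℝ) * (ε * n) := by positivity
        nlinarith
  have hBcard : (B.card : ℝ) ≤ U.card + Wb.card + W2.card := by
    rw [hB]
    exact_mod_cast (card_union_le _ _).trans (Nat.add_le_add_right (card_union_le _ _) _)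
  have htot : (((S ×ˢ S).filter (fun p => E p.1 p.2 ∧ c p.1 = c p.2)).card : ℝ) ≤
      I + H.card + 2 * n * B.card := by
    have h1 := card_le_card hcover
    have h2 : ((Y ×ˢ Y).filter (fun p => E p.1 p.2 ∧ cl p.1 = cl p.2) ∪ H ∪ (B ×ˢ S) ∪
        (S ×ˢ B)).card ≤ ((Y ×ˢ Y).filter (fun p => E p.1 p.2 ∧ cl p.1 = cl p.2)).card + H.card +
        B.card * S.card + S.card * B.card := by
      refine (card_union_le _ _).trans ?_
      rw [card_product]
      refine Nat.add_le_add_right ((card_union_le _ _).trans ?_) _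
      rw [card_product]
      exact Nat.add_le_add_right (card_union_le _ _) _
    have h3 : (((S ×ˢ S).filter (fun p => E p.1 p.2 ∧ c p.1 = c p.2)).card : ℝ) ≤
        (((Y ×ˢ Y).filter (fun p => E p.1 p.2 ∧ cl p.1 = cl p.2)).card : ℝ) + H.card +
        B.card * S.card + S.card * B.card := by exact_mod_cast h1.trans h2
    rw [← hI, ← hn] at h3
    linarith
  clear hcover hHmem hcN hcY hf2 hf1 hWblow hmiss hMcsymm hHsub hasum hai hcardY hapos hVTU
  clear htyp hmemT hmemV
  have hε1 : ε ≤ 1 := by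
    by_contra hcon
    push Not at hcon
    have h1 : n < ε * n := by nlinarith
    have h2 : n = 3 * (k : ℝ) * u + 5 * u := by rw [hnu, hq]; ring
    have h3 : 0 ≤ 3 * (k : ℝ) * u := by positivity
    linarith
  obtain ⟨N, hN⟩ : ∃ N : ℝ, N = n ^ (k + 1) := ⟨_, rfl⟩
  have hN0 : 0 < N := by rw [hN]; positivity
  have e1 : n * (U.card : ℝ) ≤ 4 / ε * I := by
    rw [div_mul_eq_mul_div, le_div_iff₀ hε]; linarith
  have e2 : n * (W2.card : ℝ) ≤ 4 / ε * H.card := by
    rw [div_mul_eq_mul_div, le_div_iff₀ hε]; linarith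
  have e3 : (H.card : ℝ) * N ≤ (q / 3) ^ k / ε * τ := by
    rw [div_mul_eq_mul_div, le_div_iff₀ hε]
    have h1 : N = n * ((q / 3) ^ k * (3 * u) ^ k) := by
      rw [hN, pow_succ, ← mul_pow]
      have : q / 3 * (3 * u) = n := by rw [hnu]; ring
      rw [this]; ring
    calc (H.card : ℝ) * N * ε = (q / 3) ^ k * ((H.card : ℝ) * (ε * n * (3 * u) ^ k)) := by
          rw [h1]; ring
      _ ≤ (q / 3) ^ k * τ := mul_le_mul_of_nonneg_left hHcard (by positivity)
  have e4 : n * (Wb.card : ℝ) * N ≤ 1 / ε ^ (k + 2) * τ := by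
    rw [div_mul_eq_mul_div, le_div_iff₀ (by positivity), one_mul]
    refine le_trans (le_of_eq ?_) hWbcard
    rw [hN, mul_pow]; ring
  have e5 : I ≤ 1 / ε * I := by
    rw [div_mul_eq_mul_div, le_div_iff₀ hε]; nlinarith
  have e6 : (H.card : ℝ) ≤ 1 / ε * H.card := by
    rw [div_mul_eq_mul_div, le_div_iff₀ hε]
    have : (0 : ℝ) ≤ H.card := by positivity
    nlinarith
  rw [← hN]
  calc _ ≤ (I + H.card + 2 * n * B.card) * N := mul_le_mul_of_nonneg_right htot hN0.le
    _ ≤ (I + H.card + 2 * n * (U.card + Wb.card + W2.card)) * N := by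
        apply mul_le_mul_of_nonneg_right _ hN0.le
        have : 2 * n * (B.card : ℝ) ≤ 2 * n * (U.card + Wb.card + W2.card) :=
          mul_le_mul_of_nonneg_left hBcard (by positivity)
        linarith
    _ = (I + 2 * (n * U.card)) * N + (H.card + 2 * (n * W2.card)) * N +
        2 * (n * Wb.card * N) := by ring
    _ ≤ (1 / ε * I + 2 * (4 / ε * I)) * N + (1 / ε * H.card + 2 * (4 / ε * H.card)) * N +
        2 * (1 / ε ^ (k + 2) * τ) := by
        have g1 : (I + 2 * (n * U.card)) * N ≤ (1 / ε * I + 2 * (4 / ε * I)) * N :=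
          mul_le_mul_of_nonneg_right (by linarith) hN0.le
        have g2 : (H.card + 2 * (n * W2.card)) * N ≤
          (1 / ε * H.card + 2 * (4 / ε * H.card)) * N :=
          mul_le_mul_of_nonneg_right (by linarith) hN0.le
        linarith
    _ = 9 / ε * (I * N) + 9 / ε * (H.card * N) + 2 / ε ^ (k + 2) * τ := by ring
    _ ≤ 9 / ε * (I * N) + 9 / ε * ((q / 3) ^ k / ε * τ) + 2 / ε ^ (k + 2) * τ := by
        have : 9 / ε * ((H.card : ℝ) * N) ≤ 9 / ε * ((q / 3) ^ k / ε * τ) :=
          mul_le_mul_of_nonneg_left e3 (by positivity)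
        linarith
    _ = _ := by
        have : (9 / ε * ((q / 3) ^ k / ε * τ) : ℝ) = 9 * (q / 3) ^ k / ε ^ 2 * τ := by
          field_simp
        rw [this]; ring

end

section
variable {V : Type*} (E : V → V → Prop)

open scoped Classical in
theorem step (k : ℕ) {ε : ℝ} (hε : 0 < ε) {C' : ℝ} (hC' : 0 < C')
    (ih : ∀ S : Finset V, S.Nonempty →
      (∀ v ∈ S, ((S.filter (fun w => ¬ E v w)).card : ℝ) ≤ (3 / (3 * k + 2) - ε) * S.card) →
      ∃ c : V → ℕ, (∀ v, c v < k + 1) ∧
        (((S ×ˢ S).filter (fun p => E p.1 p.2 ∧ c p.1 = c p.2)).card : ℝ) * (S.card : ℝ) ^ k ≤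
          C' * T E (k + 2) S)
    (S : Finset V) (hS : S.Nonempty) {n q u b τ A : ℝ} (hn : n = S.card)
    (hq : q = 3 * (k : ℝ) + 5) (hnu : n = q * u) (hb : b = 3 * u - ε * n)
    (hM' : ∀ v ∈ S, ((S.filter (fun w => ¬ E v w)).card : ℝ) ≤ b)
    (hτ : τ = T E (k + 3) S)
    (hA : A = q ^ (k + 1) / 3 ^ k + C' * (q / 2) ^ k)
    (hsmall : τ < ε ^ 2 / (16 * A) * n ^ (k + 3)) :
    ∃ c : V → ℕ, (∀ v, c v < k + 2) ∧
      (((S ×ˢ S).filter (fun p => E p.1 p.2 ∧ c p.1 = c p.2)).card : ℝ) * n ^ (k + 1) ≤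
      (9 * A / ε + 2 / ε ^ (k + 2) + 9 * (q / 3) ^ k / ε ^ 2) * τ := by
  have hn1 : 1 ≤ n := by rw [hn]; exact_mod_cast hS.card_pos
  have hn0 : 0 < n := by linarith
  have hq0 : 0 < q := by rw [hq]; positivity
  have hu0 : 0 < u := by
    by_contra h
    push Not at h
    have : q * u ≤ 0 := mul_nonpos_of_nonneg_of_nonpos hq0.le h
    linarith
  have hτ0 : 0 ≤ τ := by rw [hτ]; exact T_nonneg E _ _
  have hεn : 0 < ε * n := by positivity
  have hb0 : 0 ≤ b := by
    obtain ⟨v, hv⟩ := hS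
    exact le_trans (by positivity) (hM' v hv)
  -- choose v1
  obtain ⟨v1, hv1, hT1⟩ : ∃ v ∈ S, n * T E (k + 2) (S.filter (E v)) ≤ τ := by
    by_contra hcon
    push Not at hcon
    have h1 : ∑ v ∈ S, τ < ∑ v ∈ S, n * T E (k + 2) (S.filter (E v)) :=
      sum_lt_sum_of_nonempty hS hcon
    rw [sum_const, ← mul_sum, nsmul_eq_mul] at h1
    have h2 : ∑ v ∈ S, T E (k + 2) (S.filter (E v)) = τ := by rw [hτ]; rfl
    rw [h2, hn] at h1
    exact lt_irrefl _ h1
  obtain ⟨S1, hS1⟩ : ∃ S1, S1 = S.filter (E v1) := ⟨_, rfl⟩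
  rw [← hS1] at hT1
  have hS1S : S1 ⊆ S := by rw [hS1]; exact filter_subset _ _
  have hS1card : n - b ≤ (S1.card : ℝ) := by
    rw [hn, hS1]; exact card_filter_ge E (Subset.refl S) (hM' v1 hv1)
  have hS1le : (S1.card : ℝ) ≤ n := by rw [hn]; exact_mod_cast card_le_card hS1S
  have hnexp : n = 3 * u * k + 5 * u := by rw [hnu, hq]; ring
  have hT1low : 2 * u * (3 * u) ^ k ≤ T E (k + 1) S1 := by
    apply greedy E (S := S) (b := 3 * u) (by positivity) _ (by positivity) k hS1S
    · nlinarith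
    · intro z hz; have := hM' z hz; linarith
  have hT1pos : 0 < T E (k + 1) S1 := lt_of_lt_of_le (by positivity) hT1low
  -- choose Q
  obtain ⟨X, hXS, hXcard, hfX⟩ := pigeon E (S := S) (b := b)
    (f := fun Y => n * ((Y ∩ S1).card : ℝ) + T E 2 Y)
    (fun Y => by have := T_nonneg E 2 Y; positivity) hM' (k + 1) (W := S1) (X := S) hS1S
    (Subset.refl S) hT1pos
  have hPle : P E (fun Y => n * ((Y ∩ S1).card : ℝ) + T E 2 Y) (k + 1) S1 S ≤ 2 * τ := by
    rw [P_add E (fun Y => n * ((Y ∩ S1).card : ℝ)) (T E 2),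
      P_smul E n (fun Y => ((Y ∩ S1).card : ℝ)), P_inter E S1 (k + 1) (by
        rw [inter_eq_right]; exact hS1S)]
    have h1 := P_T_le E 2 (k + 1) hS1S
    have h2 : (2 + (k + 1)) = k + 3 := by omega
    rw [h2] at h1
    linarith
  obtain ⟨lam, hlam⟩ : ∃ lam : ℝ, lam = n * ((X ∩ S1).card : ℝ) + T E 2 X := ⟨_, rfl⟩
  have hlam0 : 0 ≤ lam := by rw [hlam]; have := T_nonneg E 2 X; positivity
  have hlamle : lam * (u * (3 * u) ^ k) ≤ τ := by
    have h1 : lam * T E (k + 1) S1 ≤ 2 * τ := by rw [hlam]; exact le_trans hfX hPle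
    have h2 : lam * (2 * u * (3 * u) ^ k) ≤ lam * T E (k + 1) S1 :=
      mul_le_mul_of_nonneg_left hT1low hlam0
    nlinarith
  -- partition of S1
  have hS1pos : 0 < (S1.card : ℝ) := by
    have : 0 ≤ 3 * u * (k : ℝ) := by positivity
    nlinarith
  have hS1ne : S1.Nonempty := by
    rw [← card_pos]; exact_mod_cast hS1pos
  obtain ⟨c1, hc1, hc1in⟩ := ih S1 hS1ne (by
    intro v hv
    have h1 : ((S1.filter (fun w => ¬ E v w)).card : ℝ) ≤
        ((S.filter (fun w => ¬ E v w)).card : ℝ) := by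
      exact_mod_cast card_le_card (filter_subset_filter _ hS1S)
    have h2 := hM' v (hS1S hv)
    have h3 : 3 * u ≤ 3 / (3 * (k : ℝ) + 2) * S1.card := by
      rw [div_mul_eq_mul_div, le_div_iff₀ (by positivity)]
      have : (3 * (k : ℝ) + 2) * u ≤ S1.card := by nlinarith
      nlinarith
    have h4 : ε * (S1.card : ℝ) ≤ ε * n := by
      apply mul_le_mul_of_nonneg_left hS1le hε.le
    have h5 : (3 / (3 * (k : ℝ) + 2) - ε) * S1.card =
      3 / (3 * (k : ℝ) + 2) * S1.card - ε * S1.card := by ring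
    rw [h5]; linarith)
  -- classes
  obtain ⟨cl, hcl⟩ : ∃ cl : V → ℕ, cl = fun v => if v ∈ S1 then c1 v else k + 1 := ⟨_, rfl⟩
  have hcl1 : ∀ v ∈ S1, cl v = c1 v := by intro v hv; rw [hcl]; simp [hv]
  have hcl2 : ∀ v ∉ S1, cl v = k + 1 := by intro v hv; rw [hcl]; simp [hv]
  have hcllt : ∀ v, cl v < k + 2 := by
    intro v; by_cases hv : v ∈ S1
    · rw [hcl1 v hv]; have := hc1 v; omega
    · rw [hcl2 v hv]; omega
  obtain ⟨Y, hY⟩ : ∃ Y, Y = S1 ∪ X := ⟨_, rfl⟩
  have hYS : Y ⊆ S := by rw [hY]; exact union_subset hS1S hXS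
  obtain ⟨Inn, hInn⟩ : ∃ Inn, Inn = (Y ×ˢ Y).filter (fun p => E p.1 p.2 ∧ cl p.1 = cl p.2) :=
    ⟨_, rfl⟩
  obtain ⟨in1, hin1⟩ : ∃ in1 : ℝ, in1 =
    (((S1 ×ˢ S1).filter (fun p => E p.1 p.2 ∧ c1 p.1 = c1 p.2)).card : ℝ) := ⟨_, rfl⟩
  rw [← hin1] at hc1in
  have hInncard : (Inn.card : ℝ) ≤ in1 + lam := by
    have h1 : Inn ⊆ (S1 ×ˢ S1).filter (fun p => E p.1 p.2 ∧ c1 p.1 = c1 p.2) ∪
        (X ×ˢ X).filter (fun p => E p.1 p.2) := by
      rintro ⟨x, y⟩ hp
      rw [hInn, hY] at hp
      simp only [mem_filter, mem_product, mem_union] at hp ⊢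
      obtain ⟨⟨hx, hy⟩, hxy, hc⟩ := hp
      by_cases hx1 : x ∈ S1 <;> by_cases hy1 : y ∈ S1
      · left; refine ⟨⟨hx1, hy1⟩, hxy, ?_⟩
        rw [hcl1 x hx1, hcl1 y hy1] at hc; exact hc
      · exfalso; rw [hcl1 x hx1, hcl2 y hy1] at hc; have := hc1 x; omega
      · exfalso; rw [hcl2 x hx1, hcl1 y hy1] at hc; have := hc1 y; omega
      · right; exact ⟨⟨by tauto, by tauto⟩, hxy⟩
    have h2 : (Inn.card : ℝ) ≤ in1 + T E 2 X := by
      rw [hin1, T_two E X]
      exact_mod_cast (card_le_card h1).trans (card_union_le _ _)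
    have h3 : T E 2 X ≤ lam := by
      rw [hlam]; have : 0 ≤ n * ((X ∩ S1).card : ℝ) := by positivity
      linarith
    linarith
  obtain ⟨e0, he0⟩ : ∃ e0 : ℝ, e0 = ((X ∩ S1).card : ℝ) := ⟨_, rfl⟩
  have he00 : 0 ≤ e0 := by rw [he0]; positivity
  have hne0 : n * e0 ≤ lam := by
    rw [hlam, he0]; have := T_nonneg E 2 X; linarith
  have hYcard : (Y.card : ℝ) = S1.card + X.card - e0 := by
    have := card_union_add_card_inter S1 X
    rw [inter_comm] at this
    have h : (Y.card : ℝ) + ((X ∩ S1).card : ℝ) = S1.card + X.card := by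
      rw [hY]; exact_mod_cast this
    rw [he0]; linarith
  rw [← hn] at hXcard
  push_cast at hXcard
  -- the total deficiency
  have hYlow : n - Y.card ≤ u - (k + 2) * (ε * n) + e0 := by
    rw [hYcard]
    have : (k + 2) * b = (k + 2) * (3 * u - ε * n) := by rw [hb]
    nlinarith
  -- main scaled bounds
  have hlamn : lam * n ^ (k + 1) ≤ q ^ (k + 1) / 3 ^ k * τ := by
    have h1 : n ^ (k + 1) = q ^ (k + 1) / 3 ^ k * (u * (3 * u) ^ k) := by
      rw [hnu]; field_simp; ring
    rw [h1]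
    calc lam * (q ^ (k + 1) / 3 ^ k * (u * (3 * u) ^ k)) =
        q ^ (k + 1) / 3 ^ k * (lam * (u * (3 * u) ^ k)) := by ring
      _ ≤ _ := by apply mul_le_mul_of_nonneg_left hlamle; positivity
  have hin1n : in1 * n ^ (k + 1) ≤ C' * (q / 2) ^ k * τ := by
    have h0 : 0 ≤ in1 := by rw [hin1]; positivity
    have h1 : in1 * (2 * u) ^ k ≤ C' * T E (k + 2) S1 := by
      refine le_trans ?_ hc1in
      apply mul_le_mul_of_nonneg_left _ h0
      apply pow_le_pow_left₀ (by positivity)
      nlinarith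
    have h2 : n ^ (k + 1) = (q / 2) ^ k * ((2 * u) ^ k * n) := by
      rw [pow_succ]; nth_rewrite 1 [hnu]; rw [← mul_assoc, ← mul_pow]; ring_nf
    rw [h2]
    calc in1 * ((q / 2) ^ k * ((2 * u) ^ k * n)) = (q / 2) ^ k * n * (in1 * (2 * u) ^ k) := by ring
      _ ≤ (q / 2) ^ k * n * (C' * T E (k + 2) S1) := by
          apply mul_le_mul_of_nonneg_left h1; positivity
      _ = (q / 2) ^ k * C' * (n * T E (k + 2) S1) := by ring
      _ ≤ (q / 2) ^ k * C' * τ := by
          apply mul_le_mul_of_nonneg_left hT1; positivity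
      _ = _ := by ring
  obtain ⟨I, hI⟩ : ∃ I : ℝ, I = (Inn.card : ℝ) := ⟨_, rfl⟩
  have hI0 : 0 ≤ I := by rw [hI]; positivity
  have hin10 : 0 ≤ in1 := by rw [hin1]; positivity
  have hA0 : 0 < A := by rw [hA]; positivity
  have hsumn : (in1 + lam) * n ^ (k + 1) ≤ A * τ := by rw [hA]; nlinarith
  have hIn : I * n ^ (k + 1) ≤ A * τ := by
    refine le_trans ?_ hsumn
    apply mul_le_mul_of_nonneg_right _ (by positivity)
    rw [hI]; exact hInncard
  -- smallness
  have hsm : (in1 + lam) ≤ ε ^ 2 / 16 * n ^ 2 := by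
    have h1 : (in1 + lam) * n ^ (k + 1) ≤ (ε ^ 2 / 16 * n ^ 2) * n ^ (k + 1) := by
      refine le_trans hsumn ?_
      calc A * τ ≤ A * (ε ^ 2 / (16 * A) * n ^ (k + 3)) := by
            apply mul_le_mul_of_nonneg_left hsmall.le hA0.le
        _ = _ := by field_simp; ring
    exact le_of_mul_le_mul_right h1 (by positivity)
  have he0sm : e0 ≤ ε * n / 4 := by
    have hqε : ε * n ≤ 3 * u := by rw [hb] at hb0; linarith
    have hε1 : ε ≤ 1 := by
      by_contra hcon
      push Not at hcon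
      have h1 : n < ε * n := by nlinarith
      have h3 : 0 ≤ 3 * (k : ℝ) * u := by positivity
      linarith
    have h1 : n * e0 ≤ n * (ε * n / 4) := by
      have h2 : lam ≤ ε ^ 2 / 16 * n ^ 2 := by linarith
      have h3 : ε ^ 2 / 16 * n ^ 2 ≤ n * (ε * n / 4) := by
        have : ε ^ 2 ≤ ε := by nlinarith
        have hn2 : 0 < n ^ 2 := by positivity
        nlinarith
      linarith
    exact le_of_mul_le_mul_left h1 hn0
  obtain ⟨c, hc, hcin⟩ := finish E k hε S hn hq hnu hb hM' hτ hn0 hq0 hu0 hb0 Y hYS cl hcllt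
    (I := I) (e0 := e0) (by rw [hI, hInn]) he0sm hYlow (by
      rw [hI]; exact le_trans hInncard hsm)
  refine ⟨c, hc, le_trans hcin ?_⟩
  have h1 : 9 / ε * (I * n ^ (k + 1)) ≤ 9 / ε * (A * τ) :=
    mul_le_mul_of_nonneg_left hIn (by positivity)
  calc _ ≤ 9 / ε * (A * τ) + (2 / ε ^ (k + 2) + 9 * (q / 3) ^ k / ε ^ 2) * τ := by linarith
    _ = _ := by ring

end

universe v

open scoped Classical in
/-- a linear removal lemma: a digraph with large out-degrees and few transitive `(k+2)`-tuples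
is close to `(k+1)`-partite -/
theorem removal (k : ℕ) (ε : ℝ) (hε : 0 < ε) : ∃ C : ℝ, 0 < C ∧
    ∀ (V : Type v) (E : V → V → Prop) (S : Finset V), S.Nonempty →
      (∀ v ∈ S, ((S.filter (fun w => ¬ E v w)).card : ℝ) ≤
        (3 / (3 * (k : ℝ) + 2) - ε) * S.card) →
      ∃ c : V → ℕ, (∀ v, c v < k + 1) ∧
        (((S ×ˢ S).filter (fun p => E p.1 p.2 ∧ c p.1 = c p.2)).card : ℝ) * (S.card : ℝ) ^ k ≤
          C * T E (k + 2) S := by
  induction k with
  | zero =>
    refine ⟨1, one_pos, fun V E S _ _ => ⟨fun _ => 0, fun _ => by simp, ?_⟩⟩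
    rw [T_two E S]; simp
  | succ k ih =>
    obtain ⟨C', hC', ih⟩ := ih
    obtain ⟨q, hq⟩ : ∃ q : ℝ, q = 3 * (k : ℝ) + 5 := ⟨_, rfl⟩
    have hq0 : 0 < q := by rw [hq]; positivity
    obtain ⟨A, hA⟩ : ∃ A : ℝ, A = q ^ (k + 1) / 3 ^ k + C' * (q / 2) ^ k := ⟨_, rfl⟩
    have hA0 : 0 < A := by rw [hA]; positivity
    obtain ⟨C1, hC1⟩ : ∃ C1 : ℝ, C1 = 9 * A / ε + 2 / ε ^ (k + 2) + 9 * (q / 3) ^ k / ε ^ 2 :=
      ⟨_, rfl⟩
    have hC10 : 0 < C1 := by rw [hC1]; positivity
    refine ⟨C1 + 16 * A / ε ^ 2, by positivity, fun V E S hS hM => ?_⟩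
    obtain ⟨n, hn⟩ : ∃ n : ℝ, n = (S.card : ℝ) := ⟨_, rfl⟩
    obtain ⟨τ, hτ⟩ : ∃ τ : ℝ, τ = T E (k + 3) S := ⟨_, rfl⟩
    have hn1 : 1 ≤ n := by rw [hn]; exact_mod_cast hS.card_pos
    have hn0 : 0 < n := by linarith
    have hτ0 : 0 ≤ τ := by rw [hτ]; exact T_nonneg E _ _
    have hq' : 3 * ((k + 1 : ℕ) : ℝ) + 2 = q := by rw [hq]; push_cast; ring
    rw [hq', ← hn] at hM
    have hT : T E (k + 1 + 2) S = τ := by rw [hτ]
    rw [hT, ← hn]
    by_cases hsmall : τ < ε ^ 2 / (16 * A) * n ^ (k + 3)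
    · obtain ⟨c, hc, hcin⟩ := step E k hε hC' (ih V E) S hS (n := n) (q := q) (u := n / q)
        (b := 3 * (n / q) - ε * n) (τ := τ) (A := A) hn hq (by field_simp) rfl (by
          intro v hv
          refine le_trans (hM v hv) (le_of_eq ?_)
          field_simp) hτ hA hsmall
      refine ⟨c, hc, le_trans hcin ?_⟩
      rw [← hC1]
      apply mul_le_mul_of_nonneg_right _ hτ0
      have : 0 < 16 * A / ε ^ 2 := by positivity
      linarith
    · push Not at hsmall
      refine ⟨fun _ => 0, fun _ => by show 0 < k + 1 + 1; omega, ?_⟩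
      have h1 : (((S ×ˢ S).filter (fun p => E p.1 p.2 ∧ (0 : ℕ) = 0)).card : ℝ) ≤ n * n := by
        have h2 : ((S ×ˢ S).filter (fun p => E p.1 p.2 ∧ (0 : ℕ) = 0)).card ≤ S.card * S.card := by
          rw [← card_product]; exact card_filter_le _ _
        rw [hn]; exact_mod_cast h2
      calc _ ≤ n * n * n ^ (k + 1) := mul_le_mul_of_nonneg_right h1 (by positivity)
        _ = 16 * A / ε ^ 2 * (ε ^ 2 / (16 * A) * n ^ (k + 3)) := by field_simp; ring
        _ ≤ 16 * A / ε ^ 2 * τ := mul_le_mul_of_nonneg_left hsmall (by positivity)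
        _ ≤ _ := by
            apply mul_le_mul_of_nonneg_right _ hτ0
            linarith

section
variable {V : Type*} (E : V → V → Prop)

open scoped Classical in
theorem T_eq_card [Fintype V] (m : ℕ) (S : Finset V) :
    T E m S = ((univ.filter (fun x : Fin m → V => (∀ i, x i ∈ S) ∧
      ∀ i j, i < j → E (x i) (x j))).card : ℝ) := by
  induction m generalizing S with
  | zero => simp [T]
  | succ m ih =>
    simp only [T]
    simp_rw [ih]
    rw [← Nat.cast_sum, ← card_sigma]
    congr 1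
    refine card_bij' (fun p _ => (Fin.cons p.1 p.2 : Fin (m + 1) → V))
      (fun x _ => ⟨x 0, Fin.tail x⟩) ?_ ?_ ?_ ?_
    · rintro ⟨z, x⟩ hp
      simp only [mem_sigma, mem_filter, mem_univ, true_and] at hp ⊢
      obtain ⟨hz, hx, hE⟩ := hp
      constructor
      · intro i; refine Fin.cases ?_ (fun i => ?_) i
        · simpa using hz
        · simpa using (hx i).1
      · intro i j
        refine Fin.cases ?_ (fun j => ?_) j
        · intro h; exact absurd h (Fin.not_lt_zero _)
        · refine Fin.cases ?_ (fun i => ?_) i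
          · intro _; simpa using (hx j).2
          · intro h; simpa using hE i j (Fin.succ_lt_succ_iff.1 h)
    · intro x hx
      simp only [mem_sigma, mem_filter, mem_univ, true_and] at hx ⊢
      refine ⟨hx.1 0, fun i => ⟨hx.1 i.succ, hx.2 0 i.succ (Fin.succ_pos i)⟩, fun i j h =>
        hx.2 i.succ j.succ (Fin.succ_lt_succ_iff.2 h)⟩
    · rintro ⟨z, x⟩ _; simp
    · intro x _; simp

end

theorem power_mean {ι : Type*} [Fintype ι] [Nonempty ι] (f : ι → ℝ) (hf : ∀ i, 0 ≤ f i) (p : ℕ)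
    {N : ℝ} (hN : N = (Fintype.card ι : ℝ)) :
    ((∑ i, f i) / N) ^ p ≤ (∑ i, f i ^ p) / N := by
  have hN0 : 0 < N := by rw [hN]; exact_mod_cast Fintype.card_pos
  have := Real.pow_arith_mean_le_arith_mean_pow (univ : Finset ι) (fun _ => 1 / N) f
    (fun _ _ => by positivity) (by simp [hN]) (fun i _ => hf i) p
  rw [← mul_sum, ← mul_sum] at this
  calc ((∑ i, f i) / N) ^ p = (1 / N * ∑ i, f i) ^ p := by ring
    _ ≤ _ := this
    _ = _ := by ring

open scoped Classical in
/-- number of `t`-blow-ups of a set of `r`-tuples (Sidorenko property of complete `r`-partite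
hypergraphs) -/
theorem hom_lower {V : Type*} [Fintype V] [Nonempty V] (t r : ℕ) (F : (Fin r → V) → Prop) :
    (((univ.filter F).card : ℝ) / (Fintype.card V : ℝ) ^ r) ^ (t ^ r) ≤
      ((univ.filter (fun φ : Fin r → Fin t → V => ∀ c : Fin r → Fin t,
        F (fun i => φ i (c i)))).card : ℝ) / ((Fintype.card V : ℝ) ^ t) ^ r := by
  have hn : 0 < (Fintype.card V : ℝ) := by exact_mod_cast Fintype.card_pos
  induction r with
  | zero =>
    simp only [pow_zero, div_one, pow_one]
    by_cases h : F Fin.elim0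
    · have h1 : ∀ x : Fin 0 → V, F x := fun x => by rwa [Subsingleton.elim x Fin.elim0]
      simp [h1]
    · have h1 : ∀ x : Fin 0 → V, ¬ F x := fun x => by rwa [Subsingleton.elim x Fin.elim0]
      simp [h1]
  | succ r ih =>
    obtain ⟨n, hnn⟩ : ∃ n : ℝ, n = (Fintype.card V : ℝ) := ⟨_, rfl⟩
    rw [← hnn] at hn ih ⊢
    -- number of tuples
    obtain ⟨g, hg⟩ : ∃ g : (Fin r → V) → ℝ, g = fun x => ((univ.filter (fun z : V =>
      F (Fin.cons z x))).card : ℝ) := ⟨_, rfl⟩
    obtain ⟨h, hh⟩ : ∃ h : (Fin t → V) → ℝ, h = fun a => ((univ.filter (fun x : Fin r → V =>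
      ∀ j, F (Fin.cons (a j) x))).card : ℝ) := ⟨_, rfl⟩
    have hF : ((univ.filter F).card : ℝ) = ∑ x : Fin r → V, g x := by
      rw [hg, ← Nat.cast_sum, ← card_sigma]
      congr 1
      refine card_bij' (fun x _ => ⟨Fin.tail x, x 0⟩)
        (fun p _ => (Fin.cons p.2 p.1 : Fin (r + 1) → V)) ?_ ?_ ?_ ?_
      · intro x hx; simpa using hx
      · rintro ⟨x, z⟩ hp; simpa using hp
      · intro x _; simp
      · rintro ⟨x, z⟩ _; simp
    have hdc : ∑ x : Fin r → V, g x ^ t = ∑ a : Fin t → V, h a := by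
      have h1 : ∀ x : Fin r → V, g x ^ t = ((univ.filter (fun a : Fin t → V =>
          ∀ j, F (Fin.cons (a j) x))).card : ℝ) := by
        intro x
        rw [hg]
        have : (univ.filter (fun a : Fin t → V => ∀ j, F (Fin.cons (a j) x))) =
          Fintype.piFinset (fun _ : Fin t => univ.filter (fun z : V => F (Fin.cons z x))) := by
          ext a; simp [Fintype.mem_piFinset]
        rw [this, Fintype.card_piFinset]
        simp
      simp_rw [h1]
      rw [hh]
      simp only [card_filter]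
      push_cast
      rw [sum_comm]
    have hhom : ((univ.filter (fun φ : Fin (r + 1) → Fin t → V => ∀ c : Fin (r + 1) → Fin t,
        F (fun i => φ i (c i)))).card : ℝ) = ∑ a : Fin t → V,
        ((univ.filter (fun φ : Fin r → Fin t → V => ∀ c : Fin r → Fin t,
          ∀ j, F (Fin.cons (a j) (fun i => φ i (c i))))).card : ℝ) := by
      rw [← Nat.cast_sum, ← card_sigma]
      congr 1
      refine card_bij' (fun x _ => ⟨x 0, Fin.tail x⟩)
        (fun p _ => (Fin.cons p.1 p.2 : Fin (r + 1) → Fin t → V)) ?_ ?_ ?_ ?_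
      · intro x hx
        simp only [mem_sigma, mem_filter, mem_univ, true_and] at hx ⊢
        intro c j
        have := hx (Fin.cons j c)
        convert this using 1
        funext i
        refine Fin.cases ?_ (fun i => ?_) i
        · simp
        · simp [Fin.tail]
      · rintro ⟨a, φ⟩ hp
        simp only [mem_sigma, mem_filter, mem_univ, true_and] at hp ⊢
        intro c
        have := hp (Fin.tail c) (c 0)
        convert this using 1
        funext i
        refine Fin.cases ?_ (fun i => ?_) i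
        · simp
        · simp [Fin.tail]
      · intro x _; simp
      · rintro ⟨x, z⟩ _; simp
    have hg0 : ∀ x, 0 ≤ g x := fun x => by rw [hg]; positivity
    have hh0 : ∀ a, 0 ≤ h a := fun a => by rw [hh]; positivity
    have s1 : ((∑ x : Fin r → V, g x) / n ^ r) ^ t ≤ (∑ x : Fin r → V, g x ^ t) / n ^ r :=
      power_mean g hg0 t (by rw [hnn]; simp)
    have s2 : ((∑ a : Fin t → V, h a / n ^ r) / n ^ t) ^ (t ^ r) ≤
        (∑ a : Fin t → V, (h a / n ^ r) ^ (t ^ r)) / n ^ t :=
      power_mean _ (fun a => div_nonneg (hh0 a) (by positivity)) (t ^ r) (by rw [hnn]; simp)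
    have s3 : ∀ a : Fin t → V, (h a / n ^ r) ^ (t ^ r) ≤
        ((univ.filter (fun φ : Fin r → Fin t → V => ∀ c : Fin r → Fin t,
          ∀ j, F (Fin.cons (a j) (fun i => φ i (c i))))).card : ℝ) / (n ^ t) ^ r := by
      intro a
      rw [hh]
      beta_reduce
      convert ih (fun x => ∀ j, F (Fin.cons (a j) x))
    have s4 : (((univ.filter F).card : ℝ) / n ^ (r + 1)) ^ t ≤
        (∑ a : Fin t → V, h a / n ^ r) / n ^ t := by
      rw [hF, ← sum_div, ← hdc]
      calc ((∑ x : Fin r → V, g x) / n ^ (r + 1)) ^ t =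
          ((∑ x : Fin r → V, g x) / n ^ r) ^ t / n ^ t := by
            rw [← div_pow]; congr 1; rw [pow_succ]; field_simp
        _ ≤ _ := div_le_div_of_nonneg_right s1 (by positivity)
    calc (((univ.filter F).card : ℝ) / n ^ (r + 1)) ^ t ^ (r + 1) =
        ((((univ.filter F).card : ℝ) / n ^ (r + 1)) ^ t) ^ (t ^ r) := by
          rw [← pow_mul]; congr 1; rw [pow_succ]; ring
      _ ≤ ((∑ a : Fin t → V, h a / n ^ r) / n ^ t) ^ (t ^ r) :=
          pow_le_pow_left₀ (by positivity) s4 _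
      _ ≤ (∑ a : Fin t → V, (h a / n ^ r) ^ (t ^ r)) / n ^ t := s2
      _ ≤ (∑ a : Fin t → V, ((univ.filter (fun φ : Fin r → Fin t → V => ∀ c : Fin r → Fin t,
          ∀ j, F (Fin.cons (a j) (fun i => φ i (c i))))).card : ℝ) / (n ^ t) ^ r) / n ^ t :=
          div_le_div_of_nonneg_right (sum_le_sum fun a _ => s3 a) (by positivity)
      _ = _ := by
          rw [← sum_div, ← hhom, div_div, ← pow_succ]

theorem card_collision {V : Type*} [Fintype V] [DecidableEq V] {ι : Type*} [Fintype ι]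
    [DecidableEq ι] (p q : ι) (hpq : p ≠ q) :
    (univ.filter (fun ψ : ι → V => ψ p = ψ q)).card * Fintype.card V ≤
      Fintype.card V ^ Fintype.card ι := by
  have h1 : (univ.filter (fun ψ : ι → V => ψ p = ψ q)).card ≤
      Fintype.card ({i : ι // i ≠ q} → V) := by
    apply card_le_card_of_injOn (fun ψ i => ψ i.1) (fun _ _ => by simp)
    intro ψ hψ ψ' hψ' h
    simp only [coe_filter, mem_univ, true_and, Set.mem_ofPred_eq] at hψ hψ'
    funext i
    by_cases hi : i = q
    · rw [hi, ← hψ, ← hψ']; exact congrFun h ⟨p, hpq⟩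
    · exact congrFun h ⟨i, hi⟩
  rw [Fintype.card_fun] at h1
  have h2 : Fintype.card {i : ι // i ≠ q} + 1 = Fintype.card ι := by
    have := Fintype.card_subtype_compl (fun i => i = q)
    have h3 : Fintype.card {i : ι // i = q} = 1 := by simp
    have h4 : 0 < Fintype.card ι := Fintype.card_pos_iff.2 ⟨q⟩
    have h5 : Fintype.card {i : ι // i ≠ q} = Fintype.card {i : ι // ¬ i = q} := rfl
    rw [h5, this, h3]; omega
  calc _ ≤ Fintype.card V ^ Fintype.card {i : ι // i ≠ q} * Fintype.card V :=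
        Nat.mul_le_mul_right _ h1
    _ = _ := by rw [← pow_succ, h2]

open scoped Classical in
theorem hom_lower' {V : Type*} [Fintype V] [Nonempty V] (t r : ℕ) (A : Finset (Fin r → V))
    (B : Finset (Fin r → Fin t → V))
    (hB : ∀ φ, φ ∈ B ↔ ∀ c : Fin r → Fin t, (fun i => φ i (c i)) ∈ A) :
    ((A.card : ℝ) / (Fintype.card V : ℝ) ^ r) ^ (t ^ r) ≤
      (B.card : ℝ) / ((Fintype.card V : ℝ) ^ t) ^ r := by
  have h := hom_lower t r (fun x => x ∈ A)
  have h1 : A = univ.filter (fun x => x ∈ A) := by ext x; simp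
  have h2 : B = univ.filter (fun φ : Fin r → Fin t → V => ∀ c : Fin r → Fin t,
    (fun i => φ i (c i)) ∈ A) := by ext φ; simp [hB]
  rw [h1, h2]
  convert h

open scoped Classical in
theorem T_eq_card' {V : Type*} [Fintype V] (E : V → V → Prop) (r : ℕ) (A : Finset (Fin r → V))
    (hA : ∀ x, x ∈ A ↔ ∀ i j, i < j → E (x i) (x j)) : T E r univ = (A.card : ℝ) := by
  rw [T_eq_card]
  congr 2
  ext x; simp [hA]

open scoped Classical in
/-- in a digraph without a copy of `T_r[t]`, `r = m + 1`, the number of transitive `r`-tuples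
is small -/
theorem T_upper {V : Type*} [Fintype V] [Nonempty V] (E : V → V → Prop) (hE : ∀ v, ¬ E v v)
    (m t : ℕ) (hm : 1 ≤ m) (ht : 1 ≤ t)
    (hfree : ¬ ∃ φ : Fin (m + 1) × Fin t → V, Function.Injective φ ∧
      ∀ i j : Fin (m + 1), i < j → ∀ a b : Fin t, E (φ (i, a)) (φ (j, b))) :
    (T E (m + 1) (univ : Finset V) / (Fintype.card V : ℝ) ^ (m + 1)) ^ (t ^ m) ≤
      ((m + 1) * t ^ 2 : ℝ) / (Fintype.card V : ℝ) := by
  obtain ⟨n, hnn⟩ : ∃ n : ℝ, n = (Fintype.card V : ℝ) := ⟨_, rfl⟩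
  have hn : 0 < n := by rw [hnn]; exact_mod_cast Fintype.card_pos
  obtain ⟨A, hA⟩ : ∃ A : V → Finset (Fin m → V), ∀ z x, x ∈ A z ↔
      (∀ i, E z (x i)) ∧ ∀ i j, i < j → E (x i) (x j) :=
    ⟨fun z => univ.filter (fun x => (∀ i, E z (x i)) ∧ ∀ i j, i < j → E (x i) (x j)), by simp⟩
  obtain ⟨B, hB⟩ : ∃ B : V → Finset (Fin m → Fin t → V), ∀ z φ, φ ∈ B z ↔
      ∀ c : Fin m → Fin t, (fun i => φ i (c i)) ∈ A z :=
    ⟨fun z => univ.filter (fun φ => ∀ c : Fin m → Fin t, (fun i => φ i (c i)) ∈ A z), by simp⟩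
  have hAcard : ∀ z, T E m (univ.filter (E z)) = ((A z).card : ℝ) := by
    intro z
    rw [T_eq_card]
    congr 2
    ext x; simp [hA]
  have hT : T E (m + 1) (univ : Finset V) = ∑ z : V, ((A z).card : ℝ) := by
    show ∑ z : V, T E m (univ.filter (E z)) = _
    exact sum_congr rfl fun z _ => hAcard z
  -- convexity
  have hconv : (T E (m + 1) (univ : Finset V) / n ^ (m + 1)) ^ (t ^ m) ≤
      (∑ z : V, ((B z).card : ℝ)) / ((n ^ t) ^ m * n) := by
    have h1 : T E (m + 1) (univ : Finset V) / n ^ (m + 1) =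
        (∑ z : V, ((A z).card : ℝ) / n ^ m) / n := by
      rw [hT, ← sum_div, div_div, ← pow_succ]
    rw [h1]
    refine le_trans (power_mean (fun z => ((A z).card : ℝ) / n ^ m)
      (fun z => by positivity) (t ^ m) hnn) ?_
    rw [← div_div]
    apply div_le_div_of_nonneg_right _ hn.le
    rw [sum_div]
    apply sum_le_sum
    intro z _
    have := hom_lower' t m (A z) (B z) (hB z)
    rw [← hnn] at this
    exact this
  rw [← hnn]
  refine le_trans hconv ?_
  obtain ⟨D, hD⟩ : ∃ D : Fin m × Fin t × Fin t → Finset (Fin m → Fin t → V), ∀ p φ, φ ∈ D p ↔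
      (p.2.1 ≠ p.2.2 ∧ φ p.1 p.2.1 = φ p.1 p.2.2) :=
    ⟨fun p => univ.filter (fun φ => p.2.1 ≠ p.2.2 ∧ φ p.1 p.2.1 = φ p.1 p.2.2), by simp⟩
  obtain ⟨DD, hDD⟩ : ∃ DD, DD = (univ : Finset (Fin m × Fin t × Fin t)).biUnion D := ⟨_, rfl⟩
  have hcard1 : ∀ p : Fin m × Fin t × Fin t, ((D p).card : ℝ) ≤ (n ^ t) ^ m / n := by
    rintro ⟨i, a, b⟩
    rw [le_div_iff₀ hn]
    by_cases hab : a = b
    · have : D (i, a, b) = ∅ := by
        ext φ; simp [hD, hab]
      rw [this]; simp only [card_empty, Nat.cast_zero, zero_mul]; positivity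
    · have h1 := card_collision (V := V) (ι := Fin m × Fin t) (i, a) (i, b)
        (by intro h; exact hab (congrArg Prod.snd h))
      have h2 : (D (i, a, b)).card ≤
          (univ.filter (fun ψ : Fin m × Fin t → V => ψ (i, a) = ψ (i, b))).card := by
        apply card_le_card_of_injOn (fun φ p => φ p.1 p.2)
        · intro φ hφ
          rw [mem_coe, hD] at hφ
          simp only [coe_filter, mem_univ, true_and, Set.mem_ofPred_eq]
          exact hφ.2
        · intro φ _ φ' _ h
          funext i a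
          exact congrFun h (i, a)
      have h3 : (D (i, a, b)).card *
          Fintype.card V ≤ Fintype.card V ^ (m * t) := by
        refine le_trans (Nat.mul_le_mul_right _ h2) ?_
        simpa [Fintype.card_prod] using h1
      have h4 : ((D (i, a, b)).card : ℝ) * n ≤ n ^ (m * t) := by
        rw [hnn]; exact_mod_cast h3
      refine le_trans h4 (le_of_eq ?_)
      rw [← pow_mul, mul_comm]
  have hDDcard : (DD.card : ℝ) ≤ (m * t ^ 2) * ((n ^ t) ^ m / n) := by
    calc (DD.card : ℝ) ≤ ∑ p : Fin m × Fin t × Fin t, ((D p).card : ℝ) := by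
          rw [hDD]; exact_mod_cast card_biUnion_le
      _ ≤ ∑ p : Fin m × Fin t × Fin t, (n ^ t) ^ m / n := sum_le_sum fun p _ => hcard1 p
      _ = _ := by
          rw [sum_const, nsmul_eq_mul]
          simp only [card_univ, Fintype.card_prod, Fintype.card_fin]
          push_cast; ring
  -- arcs inside blow-ups
  have harc : ∀ z φ, φ ∈ B z → (∀ i a, E z (φ i a)) ∧
      ∀ i j : Fin m, i < j → ∀ a b : Fin t, E (φ i a) (φ j b) := by
    intro z φ hφ
    rw [hB] at hφ
    simp only [hA] at hφ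
    constructor
    · intro i a
      exact (hφ (fun _ => a)).1 i
    · intro i j hij a b
      have := (hφ (fun l => if l = i then a else b)).2 i j hij
      simpa [hij.ne'] using this
  -- for a collision free blow-up there are less than `t` roots
  have hroots : ∀ φ : Fin m → Fin t → V, φ ∉ DD →
      ((univ.filter (fun z : V => φ ∈ B z)).card : ℝ) ≤ t := by
    intro φ hφ
    by_contra hcon
    push Not at hcon
    have hcon' : t ≤ (univ.filter (fun z : V => φ ∈ B z)).card := by
      exact_mod_cast hcon.le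
    obtain ⟨Z, hZs, hZc⟩ := exists_subset_card_eq hcon'
    have e : Fin t ≃ Z := (Finset.equivFinOfCardEq hZc).symm
    have hZ : ∀ a, φ ∈ B (e a) := fun a => (mem_filter.1 (hZs (e a).2)).2
    apply hfree
    refine ⟨fun p => Fin.cases (motive := fun _ => V) ((e p.2 : Z) : V) (fun i => φ i p.2) p.1,
      ?_, ?_⟩
    · rintro ⟨i, a⟩ ⟨j, b⟩ h
      revert h
      refine Fin.cases ?_ (fun i => ?_) i
      · refine Fin.cases ?_ (fun j => ?_) j
        · intro h
          simp only [Fin.cases_zero] at h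
          rw [e.injective (Subtype.ext h)]
        · intro h
          simp only [Fin.cases_zero, Fin.cases_succ] at h
          exact absurd (h ▸ (harc _ φ (hZ a)).1 j b) (hE _)
      · refine Fin.cases ?_ (fun j => ?_) j
        · intro h
          simp only [Fin.cases_zero, Fin.cases_succ] at h
          exact absurd (h ▸ (harc _ φ (hZ b)).1 i a) (hE _)
        · intro h
          simp only [Fin.cases_succ] at h
          rcases lt_trichotomy i j with hij | hij | hij
          · exact absurd (h ▸ (harc _ φ (hZ a)).2 i j hij a b) (hE _)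
          · subst hij
            by_cases hab : a = b
            · rw [hab]
            · exfalso
              apply hφ
              rw [hDD, mem_biUnion]
              exact ⟨(i, a, b), mem_univ _, (hD _ _).2 ⟨hab, h⟩⟩
          · have := (harc _ φ (hZ a)).2 j i hij b a
            rw [h] at this
            exact absurd this (hE _)
    · intro i j
      refine Fin.cases ?_ (fun j => ?_) j
      · intro h; exact absurd h (Fin.not_lt_zero _)
      · refine Fin.cases ?_ (fun i => ?_) i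
        · intro _ a b
          simp only [Fin.cases_zero, Fin.cases_succ]
          exact (harc _ φ (hZ a)).1 j b
        · intro h a b
          simp only [Fin.cases_succ]
          exact (harc _ φ (hZ a)).2 i j (Fin.succ_lt_succ_iff.1 h) a b
  have hsum : ∑ z : V, ((B z).card : ℝ) ≤ t * (n ^ t) ^ m + n * DD.card := by
    have h1 : ∑ z : V, ((B z).card : ℝ) = ∑ φ : Fin m → Fin t → V,
        ((univ.filter (fun z : V => φ ∈ B z)).card : ℝ) := by
      have h2 : ∀ z, ((B z).card : ℝ) = ∑ φ : Fin m → Fin t → V, if φ ∈ B z then (1 : ℝ) else 0 := by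
        intro z; rw [sum_boole]; congr 2; ext φ; simp
      simp_rw [h2]
      rw [sum_comm]
      refine sum_congr rfl fun φ _ => ?_
      rw [sum_boole]
    rw [h1, ← sum_filter_add_sum_filter_not univ (fun φ => φ ∉ DD)]
    apply add_le_add
    · calc _ ≤ ∑ φ ∈ univ.filter (fun φ : Fin m → Fin t → V => φ ∉ DD), (t : ℝ) := by
            apply sum_le_sum; intro φ hφ
            exact hroots φ (mem_filter.1 hφ).2
        _ ≤ ∑ φ : Fin m → Fin t → V, (t : ℝ) := by
            apply sum_le_sum_of_subset_of_nonneg (filter_subset _ _)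
            intro _ _ _; positivity
        _ = _ := by
            rw [sum_const, nsmul_eq_mul, card_univ]
            simp only [Fintype.card_fun, Fintype.card_fin]
            push_cast
            rw [← hnn]; ring
    · calc _ ≤ ∑ φ ∈ univ.filter (fun φ : Fin m → Fin t → V => ¬ φ ∉ DD), n := by
            apply sum_le_sum; intro φ hφ
            rw [hnn]
            exact_mod_cast card_le_univ _
        _ = _ := by
            rw [sum_const, nsmul_eq_mul]
            have : univ.filter (fun φ : Fin m → Fin t → V => ¬ φ ∉ DD) = DD := by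
              ext φ; simp
            rw [this]; ring
  rw [div_le_div_iff₀ (by positivity) hn]
  have h3 : n * (DD.card : ℝ) ≤ m * t ^ 2 * (n ^ t) ^ m := by
    calc n * (DD.card : ℝ) ≤ n * ((m * t ^ 2) * ((n ^ t) ^ m / n)) :=
          mul_le_mul_of_nonneg_left hDDcard hn.le
      _ = _ := by field_simp
  have h4 : (t : ℝ) ≤ t ^ 2 := by
    have : (1 : ℝ) ≤ t := by exact_mod_cast ht
    nlinarith
  have h5 : 0 < (n ^ t) ^ m := by positivity
  calc (∑ z : V, ((B z).card : ℝ)) * n ≤ (t * (n ^ t) ^ m + m * t ^ 2 * (n ^ t) ^ m) * n := by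
        apply mul_le_mul_of_nonneg_right _ hn.le
        linarith
    _ ≤ (t ^ 2 * (n ^ t) ^ m + m * t ^ 2 * (n ^ t) ^ m) * n := by
        apply mul_le_mul_of_nonneg_right _ hn.le
        have := mul_le_mul_of_nonneg_right h4 h5.le
        linarith
    _ = _ := by ring


/-- Polynomial stability for digraphs without a blow-up `T_r[t]` of the transitive tournament. -/
theorem result (r t : ℕ) (hr : 3 ≤ r) (ht : 1 ≤ t) (ε : ℝ) (hε : 0 < ε) :
    ∃ C : ℝ, ∀ (V : Type v) [Fintype V] (D : Digraph V),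
      (∀ v, ¬ D.Adj v v) →
      (¬ ∃ φ : Fin r × Fin t → V, Function.Injective φ ∧
        ∀ i j : Fin r, i < j → ∀ a b : Fin t, D.Adj (φ (i, a)) (φ (j, b))) →
      (∀ v, ((3 * (r : ℝ) - 7) / (3 * (r : ℝ) - 4) + ε) * (Fintype.card V : ℝ) ≤
        ({w | D.Adj v w}.ncard : ℝ)) →
      ∃ R : Set (V × V),
        (R.ncard : ℝ) ≤ C * (Fintype.card V : ℝ) ^ ((2 : ℝ) - 1 / (t : ℝ) ^ (r - 1)) ∧
        ∃ c : V → Fin (r - 1), ∀ x y, D.Adj x y → (x, y) ∉ R → c x ≠ c y := by
  classical
  obtain ⟨k, rfl⟩ : ∃ k, r = k + 2 := ⟨r - 2, by omega⟩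
  have hk1 : k + 2 - 1 = k + 1 := by omega
  obtain ⟨C, hC, hrem⟩ := removal.{v} k ε hε
  obtain ⟨s, hs⟩ : ∃ s : ℝ, s = 1 / (t : ℝ) ^ (k + 2 - 1) := ⟨_, rfl⟩
  have ht0 : (0 : ℝ) < t := by exact_mod_cast ht
  have hs0 : 0 < s := by rw [hs]; positivity
  have hK : (0 : ℝ) < ((k + 1 : ℕ) + 1) * (t : ℝ) ^ 2 := by positivity
  refine ⟨C * (((k + 1 : ℕ) + 1) * (t : ℝ) ^ 2) ^ s, fun V _ D hloop hfree hdeg => ?_⟩
  rw [← hs]
  rcases isEmpty_or_nonempty V with hV | hV
  · refine ⟨∅, ?_, fun v => isEmptyElim v, fun x => isEmptyElim x⟩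
    simp only [Set.ncard_empty, Nat.cast_zero]
    positivity
  obtain ⟨n, hnn⟩ : ∃ n : ℝ, n = (Fintype.card V : ℝ) := ⟨_, rfl⟩
  have hn : 0 < n := by rw [hnn]; exact_mod_cast Fintype.card_pos
  obtain ⟨c, hc, hin⟩ := hrem V D.Adj univ univ_nonempty (by
    intro v _
    have h1 := hdeg v
    have h2 : ({w | D.Adj v w} : Set V).ncard = (univ.filter (D.Adj v)).card := by
      rw [← Set.ncard_coe_finset]; congr 1; ext w; simp
    rw [h2, ← hnn] at h1
    have h3 := card_filter_add_card_filter_not (s := (univ : Finset V)) (p := D.Adj v)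
    have h4 : ((univ.filter (D.Adj v)).card : ℝ) +
        ((univ.filter (fun w => ¬ D.Adj v w)).card : ℝ) = n := by
      rw [hnn, ← card_univ]; exact_mod_cast h3
    rw [card_univ, ← hnn]
    have h5 : (3 * ((k + 2 : ℕ) : ℝ) - 7) / (3 * ((k + 2 : ℕ) : ℝ) - 4) =
        1 - 3 / (3 * (k : ℝ) + 2) := by
      have h6 : (3 * ((k + 2 : ℕ) : ℝ) - 4) = 3 * (k : ℝ) + 2 := by push_cast; ring
      rw [h6, eq_sub_iff_add_eq, ← add_div, div_eq_one_iff_eq (by positivity)]
      push_cast; ring
    rw [h5] at h1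
    have h7 : (1 - 3 / (3 * (k : ℝ) + 2) + ε) * n = n - (3 / (3 * (k : ℝ) + 2) - ε) * n := by ring
    rw [h7] at h1
    linarith)
  rw [card_univ, ← hnn] at hin
  refine ⟨{p : V × V | D.Adj p.1 p.2 ∧ c p.1 = c p.2}, ?_, fun v => ⟨c v, by
    have := hc v; omega⟩, ?_⟩
  · rw [← hnn]
    have h1 : ({p : V × V | D.Adj p.1 p.2 ∧ c p.1 = c p.2} : Set (V × V)).ncard =
        (((univ : Finset V) ×ˢ (univ : Finset V)).filter
          (fun p => D.Adj p.1 p.2 ∧ c p.1 = c p.2)).card := by
      rw [← Set.ncard_coe_finset]; congr 1; ext p; simp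
    rw [h1]
    obtain ⟨I, hI⟩ : ∃ I : ℝ, I = ((((univ : Finset V) ×ˢ (univ : Finset V)).filter
          (fun p => D.Adj p.1 p.2 ∧ c p.1 = c p.2)).card : ℝ) := ⟨_, rfl⟩
    have hin' : I * n ^ k ≤ C * T D.Adj (k + 2) univ := by
      rw [hI]; exact hin
    rw [← hI]
    have hTup := T_upper D.Adj hloop (k + 1) t (by omega) ht hfree
    obtain ⟨d, hd⟩ : ∃ d : ℝ, d = T D.Adj (k + 2) univ / n ^ (k + 2) := ⟨_, rfl⟩
    have hd0 : 0 ≤ d := by rw [hd]; have := T_nonneg D.Adj (k + 2) (univ : Finset V); positivity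
    rw [← hnn] at hTup
    have hTup' : d ^ (t ^ (k + 1)) ≤ (((k + 1 : ℕ) : ℝ) + 1) * (t : ℝ) ^ 2 / n := by
      rw [hd]; exact hTup
    have hdle : d ≤ ((((k + 1 : ℕ) : ℝ) + 1) * (t : ℝ) ^ 2 / n) ^ s := by
      have h2 : d = (d ^ (t ^ (k + 1))) ^ s := by
        rw [← Real.rpow_natCast, ← Real.rpow_mul hd0, hs, hk1]
        have : (((t ^ (k + 1) : ℕ) : ℝ)) * (1 / (t : ℝ) ^ (k + 1)) = 1 := by
          push_cast; field_simp
        rw [this, Real.rpow_one]
      rw [h2]
      exact Real.rpow_le_rpow (by positivity) hTup' hs0.le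
    have hI1 : I ≤ C * d * n ^ 2 := by
      have h3 : I * n ^ k ≤ (C * d * n ^ 2) * n ^ k := by
        refine le_trans hin' (le_of_eq ?_)
        rw [hd]; field_simp; ring
      exact le_of_mul_le_mul_right h3 (by positivity)
    calc I ≤ C * d * n ^ 2 := hI1
      _ ≤ C * ((((k + 1 : ℕ) : ℝ) + 1) * (t : ℝ) ^ 2 / n) ^ s * n ^ 2 := by
          apply mul_le_mul_of_nonneg_right _ (by positivity)
          exact mul_le_mul_of_nonneg_left hdle hC.le
      _ = C * ((((k + 1 : ℕ) : ℝ) + 1) * (t : ℝ) ^ 2) ^ s * (n ^ (2 : ℝ) / n ^ s) := by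
          rw [Real.div_rpow hK.le hn.le, ← Real.rpow_natCast n 2]
          push_cast; ring
      _ = _ := by rw [← Real.rpow_sub hn]
  · intro x y hxy hR h
    apply hR
    refine ⟨hxy, ?_⟩
    exact congrArg Fin.val h

end

end Pool.Agent.Results.MP_cbc67c_co.PolyStability
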